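import Pool.Agent.H68.LCS.Targets

/-!
# Compact neighbourhoods modulo `R` (helper13, row A_LCG of lpq_modules)
-/

set_option autoImplicit false

open Set Filter Topology
open scoped Pointwise

namespace Pool.Agent.H13.LCS

open Pool.Agent.H93.CP Pool.Agent.H7.LP Pool.Agent.H7.LQ Pool.Agent.H68.LCS

theorem pf_LCG : T_LCG := by
  intro G _ _ _ _ R H hP
  obtain ⟨C, hC, hZ⟩ := hP.lc
  obtain ⟨B, hB⟩ := (𝓝 (1 : G)).exists_antitone_basis
  have hHc : IsClosed (H : Set G) := H.isClosed_of_isOpen hP.op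
  refine ⟨{
    N := fun p => C ∩ (H : Set G) ∩ closure {g | ∃ r ∈ R, g * r ∈ interior (B p)}
    W := fun p => interior (B p) ∩ interior {g : G | ∃ c ∈ C, c⁻¹ * g ∈ R} ∩ (H : Set G)
    cpt := fun p => (hC.inter_right hHc).inter_right isClosed_closure
    opn := fun p => (isOpen_interior.inter isOpen_interior).inter hP.op
    one := fun p => ⟨⟨mem_interior_iff_mem_nhds.mpr (hB.mem p),
      mem_interior_iff_mem_nhds.mpr hZ⟩, H.one_mem⟩
    nH := fun p c hc => hc.1.2
    wH := fun p w hw => hw.2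
    cov := ?_
    sml := ?_ }⟩
  · intro p w hw
    obtain ⟨c, hc, hr⟩ := interior_subset hw.1.2
    have e1 : w = c * (c⁻¹ * w) := (mul_inv_cancel_left c w).symm
    refine ⟨c, ⟨⟨hc, ?_⟩, subset_closure ⟨c⁻¹ * w, hr, ?_⟩⟩, c⁻¹ * w, hr, e1⟩
    · have h1 : c = w * (c⁻¹ * w)⁻¹ := by
        rw [mul_inv_rev, inv_inv, mul_inv_cancel_left]
      rw [h1]
      exact H.mul_mem hw.2 (H.inv_mem (hP.le hr))
    · rw [← e1]
      exact hw.1.1
  · intro O hO
    obtain ⟨V, hV, hVO⟩ := exists_nhds_one_split hO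
    obtain ⟨p, hp⟩ := hB.mem_iff.mp hV
    refine ⟨p, fun c hc => ?_⟩
    have hcl := hc.2
    rw [mem_closure_iff_nhds] at hcl
    have h1 : {a : G | c * a⁻¹ ∈ V} ∈ 𝓝 c := by
      have h2 : Continuous fun a : G => c * a⁻¹ := continuous_const.mul continuous_inv
      apply h2.continuousAt.preimage_mem_nhds
      rw [mul_inv_cancel]
      exact hV
    obtain ⟨a, ha, r, hr, har⟩ := hcl _ h1
    refine ⟨r, hr, ?_⟩
    have h3 := hVO (c * a⁻¹) ha (a * r) (hp (interior_subset har))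
    have h4 : c * a⁻¹ * (a * r) = c * r := by group
    rwa [h4] at h3

end Pool.Agent.H13.LCS
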